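import Pool.Agent.Y157.PS.Stm4
import Pool.Agent.Y157.PS.Tools

/-!
# Sections of the fundamental group induce sections of the geometrically pro-`ℓ` group

(helper32, part IND of the project PS of helper157.)
-/

set_option autoImplicit false
set_option linter.all false

open Polynomial FF

namespace Pool.Agent.Y32.PS

open Pool.Agent.Y157.PS

/-- restriction of automorphisms of `N` to a subextension `M` which is stable under all
automorphisms of the algebraic closure -/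
theorem restr {F Ω : Type} [Field F] [Field Ω] [Algebra F Ω] [IsAlgClosed Ω]
    [Algebra.IsAlgebraic F Ω] (M N : IntermediateField F Ω) (hMN : M ≤ N)
    (hM : ∀ σ : Ω ≃ₐ[F] Ω, ∀ z ∈ M, σ z ∈ M) :
    ∃ Φ : (N ≃ₐ[F] N) →* (M ≃ₐ[F] M), Continuous Φ ∧
      ∀ (e : N ≃ₐ[F] N) (z : N) (w : M), (w : Ω) = (z : Ω) →
        ((Φ e w : M) : Ω) = ((e z : N) : Ω) := by
  haveI : IsAlgClosure F Ω := ⟨inferInstance, inferInstance⟩
  haveI : Normal F Ω := IsAlgClosure.normal F Ω
  have hst : ∀ (e : N ≃ₐ[F] N) (z : M), ((e ⟨(z : Ω), hMN z.2⟩ : N) : Ω) ∈ M := by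
    intro e z
    have h1 : e.liftNormal Ω (algebraMap N Ω ⟨(z : Ω), hMN z.2⟩) =
        algebraMap N Ω (e ⟨(z : Ω), hMN z.2⟩) := e.liftNormal_commutes Ω _
    have h2 := hM (e.liftNormal Ω) (z : Ω) z.2
    have h3 : e.liftNormal Ω (z : Ω) = ((e ⟨(z : Ω), hMN z.2⟩ : N) : Ω) := h1
    rw [h3] at h2
    exact h2
  let T0 : (N ≃ₐ[F] N) → (M →ₐ[F] M) := fun e =>
    { toFun := fun z => ⟨((e ⟨(z : Ω), hMN z.2⟩ : N) : Ω), hst e z⟩
      map_one' := Subtype.ext (by
        have : (⟨((1 : M) : Ω), hMN (1 : M).2⟩ : N) = 1 := Subtype.ext rfl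
        change ((e ⟨((1 : M) : Ω), hMN (1 : M).2⟩ : N) : Ω) = 1
        rw [this, map_one]; rfl)
      map_mul' := fun a b => Subtype.ext (by
        have : (⟨((a * b : M) : Ω), hMN (a * b : M).2⟩ : N) =
            ⟨(a : Ω), hMN a.2⟩ * ⟨(b : Ω), hMN b.2⟩ := Subtype.ext rfl
        change ((e ⟨((a * b : M) : Ω), hMN (a * b : M).2⟩ : N) : Ω) = _
        rw [this, map_mul]; rfl)
      map_zero' := Subtype.ext (by
        have : (⟨((0 : M) : Ω), hMN (0 : M).2⟩ : N) = 0 := Subtype.ext rfl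
        change ((e ⟨((0 : M) : Ω), hMN (0 : M).2⟩ : N) : Ω) = 0
        rw [this, map_zero]; rfl)
      map_add' := fun a b => Subtype.ext (by
        have : (⟨((a + b : M) : Ω), hMN (a + b : M).2⟩ : N) =
            ⟨(a : Ω), hMN a.2⟩ + ⟨(b : Ω), hMN b.2⟩ := Subtype.ext rfl
        change ((e ⟨((a + b : M) : Ω), hMN (a + b : M).2⟩ : N) : Ω) = _
        rw [this, map_add]; rfl)
      commutes' := fun r => Subtype.ext (by
        have : (⟨((algebraMap F M r : M) : Ω), hMN (algebraMap F M r : M).2⟩ : N) =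
            algebraMap F N r := Subtype.ext rfl
        change ((e ⟨((algebraMap F M r : M) : Ω), hMN (algebraMap F M r : M).2⟩ : N) : Ω) = _
        rw [this, e.commutes]; rfl) }
  have hT0 : ∀ (e : N ≃ₐ[F] N) (z : M), ((T0 e z : M) : Ω) =
      ((e ⟨(z : Ω), hMN z.2⟩ : N) : Ω) := fun e z => rfl
  have hone : ∀ z : M, T0 1 z = z := fun z => Subtype.ext rfl
  have hmul : ∀ (e e' : N ≃ₐ[F] N) (z : M), T0 (e * e') z = T0 e (T0 e' z) :=
    fun e e' z => Subtype.ext rfl
  let T1 : (N ≃ₐ[F] N) → (M ≃ₐ[F] M) := fun e =>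
    AlgEquiv.ofAlgHom (T0 e) (T0 e⁻¹)
      (by
        ext z
        change ((T0 e (T0 e⁻¹ z) : M) : Ω) = (z : Ω)
        rw [← hmul, mul_inv_cancel, hone])
      (by
        ext z
        change ((T0 e⁻¹ (T0 e z) : M) : Ω) = (z : Ω)
        rw [← hmul, inv_mul_cancel, hone])
  have hT1 : ∀ (e : N ≃ₐ[F] N) (z : M), T1 e z = T0 e z := fun e z => rfl
  let Φ : (N ≃ₐ[F] N) →* (M ≃ₐ[F] M) :=
    { toFun := T1
      map_one' := by
        ext z
        change ((T0 1 z : M) : Ω) = (z : Ω)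
        rw [hone]
      map_mul' := fun e e' => by
        ext z
        change ((T0 (e * e') z : M) : Ω) = ((T0 e (T0 e' z) : M) : Ω)
        rw [hmul] }
  have hΦ : ∀ (e : N ≃ₐ[F] N) (z : M), Φ e z = T0 e z := fun e z => rfl
  refine ⟨Φ, ?_, ?_⟩
  · refine continuous_of_continuousAt_one Φ ?_
    rw [ContinuousAt, map_one]
    intro s hs
    rw [krullTopology_mem_nhds_one_iff] at hs
    obtain ⟨E, hE, hEs⟩ := hs
    rw [Filter.mem_map, krullTopology_mem_nhds_one_iff]
    haveI := hE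
    refine ⟨E.map (IntermediateField.inclusion hMN),
      LinearEquiv.finiteDimensional
        (IntermediateField.equivMap E (IntermediateField.inclusion hMN)).toLinearEquiv, ?_⟩
    intro e he
    apply hEs
    rw [SetLike.mem_coe, IntermediateField.mem_fixingSubgroup_iff] at he ⊢
    intro z hz
    apply Subtype.ext
    rw [hΦ, hT0]
    have h1 := he (IntermediateField.inclusion hMN z) ⟨z, hz, rfl⟩
    exact congrArg (fun w : N => (w : Ω)) h1
  · intro e z w hwz
    rw [hΦ, hT0]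
    have : (⟨(w : Ω), hMN w.2⟩ : N) = z := Subtype.ext hwz
    rw [this]

/-- part IND -/
theorem ind (hI : S_INRT) : S_IND := by
  intro ℓ _ k F Ω _ _ _ _ _ _ _ _ _ _ x hx halg U hU
  haveI : IsAlgClosure F Ω := ⟨inferInstance, inferInstance⟩
  obtain ⟨h1, h2⟩ := hI ℓ k F Ω x hx halg
  have hle : geomPro ℓ k F Ω ≤ Pool.Agent.W620.SC.unramified F Ω U := by
    intro z hz
    rw [Pool.Agent.W620.SC.mem_unramified]
    intro W hW σ hσ
    refine h1 W (fun c => ?_) σ (fun y => ⟨fun hy => ?_, fun hy => ?_⟩) (fun y hy => ?_) z hz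
    · have h3 := hU _ hW c
      rw [ValuationSubring.mem_comap] at h3
      rw [IsScalarTower.algebraMap_apply k F Ω]
      exact h3
    · have h3 := (Pool.Agent.W620.SC.inertia_spec (inv_mem hσ) hy).1
      have h4 : (σ⁻¹ : Ω ≃ₐ[F] Ω) (σ y) = y := σ.symm_apply_apply y
      rw [h4] at h3
      exact h3
    · exact (Pool.Agent.W620.SC.inertia_spec hσ hy).1
    · exact (Pool.Agent.W620.SC.inertia_spec hσ hy).2
  refine ⟨hle, ?_⟩
  intro G _ _ _ S hS
  obtain ⟨Φ, hΦ, hΦ'⟩ := restr (geomPro ℓ k F Ω) (Pool.Agent.W620.SC.unramified F Ω U) hle h2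
  exact ⟨Φ.comp S, hΦ.comp hS, fun g z w hw => hΦ' (S g) z w hw⟩

end Pool.Agent.Y32.PS
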