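import Pool.Agent.Y157.PS.Stm4
import Pool.Agent.Y157.PS.Loc

/-!
# Comparison of the global and the local branch point

(helper32, part CMP of the project PS of helper157.)
-/

set_option autoImplicit false
set_option linter.all false

open Polynomial FF

namespace Pool.Agent.Y32.PS

open Pool.Agent.Y157.PS

section abs

variable {κ M : Type} [Field κ] [Field M] [Algebra κ M] {W : ValuationSubring M}

theorem isU_const (hW : ∀ c : κ, algebraMap κ M c ∈ W) {c : κ} (hc : c ≠ 0) :
    IsU W (algebraMap κ M c) :=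
  ⟨(_root_.map_ne_zero _).2 hc, hW c, by rw [← map_inv₀]; exact hW _⟩

theorem const_zero (hW : ∀ c : κ, algebraMap κ M c ∈ W) {c : κ}
    (hc : algebraMap κ M c ∈ W.nonunits) : c = 0 := by
  by_contra h
  exact (isU_const hW h).not_nonunit hc

theorem isU_add_non {a b : M} (ha : IsU W a) (hb : b ∈ W.nonunits) : IsU W (a + b) := by
  refine isU_of_not_nonunit (add_mem ha.2.1 (non_mem hb)) fun h => ?_
  have h1 := non_sub h hb
  rw [add_sub_cancel_right] at h1
  exact ha.not_nonunit h1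

theorem prod_congr_non {K : Type} [DecidableEq K] (T : Finset K) (f g : K → M)
    (hf : ∀ a ∈ T, IsU W (f a)) (hg : ∀ a ∈ T, IsU W (g a))
    (h : ∀ a ∈ T, f a - g a ∈ W.nonunits) :
    IsU W (∏ a ∈ T, f a) ∧ IsU W (∏ a ∈ T, g a) ∧
      (∏ a ∈ T, f a) - (∏ a ∈ T, g a) ∈ W.nonunits := by
  induction T using Finset.induction_on with
  | empty =>
    rw [Finset.prod_empty, Finset.prod_empty, sub_self]
    exact ⟨isU_one, isU_one, nonunits_iff.2 ⟨zero_mem _, Or.inl rfl⟩⟩
  | insert a T ha ih =>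
    obtain ⟨h1, h2, h3⟩ := ih (fun b hb => hf b (Finset.mem_insert_of_mem hb))
      (fun b hb => hg b (Finset.mem_insert_of_mem hb))
      (fun b hb => h b (Finset.mem_insert_of_mem hb))
    have ha' := Finset.mem_insert_self a T
    rw [Finset.prod_insert ha, Finset.prod_insert ha]
    refine ⟨(hf a ha').mul h1, (hg a ha').mul h2, ?_⟩
    have h4 : f a * ∏ b ∈ T, f b - g a * ∏ b ∈ T, g b =
        f a * (∏ b ∈ T, f b - ∏ b ∈ T, g b) + (∏ b ∈ T, g b) * (f a - g a) := by ring
    rw [h4]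
    exact non_add (non_mul (hf a ha').2.1 h3) (non_mul h2.2.1 (h a ha'))

theorem zpow_not_unit {V : ValuationSubring κ} {ϖ : κ} (hϖ : ϖ ∈ V.nonunits) (n : ℤ)
    (hn : n ≠ 0) (h : IsU V (ϖ ^ n)) : False := by
  rcases lt_or_gt_of_ne hn with h1 | h1
  · have h2 := h.inv
    rw [← zpow_neg] at h2
    obtain ⟨N, hN⟩ := Int.eq_ofNat_of_zero_le (show 0 ≤ -n by omega)
    rw [hN, zpow_natCast] at h2
    exact (isU_of_pow (by omega) h2).not_nonunit hϖ
  · obtain ⟨N, hN⟩ := Int.eq_ofNat_of_zero_le (show 0 ≤ n by omega)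
    rw [hN, zpow_natCast] at h
    exact (isU_of_pow (by omega) h).not_nonunit hϖ

theorem unit_isU {A : Type} [CommRing A] [Algebra A κ] {V : ValuationSubring κ}
    (hVA : ∀ a : A, algebraMap A κ a ∈ V) {a : A} (ha : IsUnit a) :
    IsU V (algebraMap A κ a) := by
  obtain ⟨u, rfl⟩ := ha
  have h1 : algebraMap A κ (u : A) * algebraMap A κ ((u⁻¹ : Aˣ) : A) = 1 := by
    rw [← map_mul, Units.mul_inv, map_one]
  exact ⟨left_ne_zero_of_mul_eq_one h1, hVA _, by
    rw [inv_eq_of_mul_eq_one_right h1]; exact hVA _⟩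

theorem alg1 {L : Type} [Field L] {a b c d p : L} (ha : a ≠ 0) (hb : b ≠ 0) (hp : p ≠ 0)
    (hd : d ≠ 0) : a * b * c / (a * (b * p) / d) = c * d / p := by
  field_simp

theorem alg2 {L : Type} [Field L] {c p q : L} (hp : p ≠ 0) (hq : q ≠ 0) :
    c / p - c / q = -(c / (p * q)) * (p - q) := by
  field_simp
  ring

theorem alg3 {L : Type} [Field L] {a b : L} (ha : a ≠ 0) (hb : b ≠ 0) : a = b / (b * a⁻¹) := by
  field_simp

theorem cmp_abs (hINE : S_INE) {A k : Type} [CommRing A] [IsDomain A]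
    [IsDiscreteValuationRing A] [Finite (IsLocalRing.ResidueField A)] [Field k] [CharZero k]
    [Algebra A k] [Algebra k κ] [Algebra A κ] [IsScalarTower A k κ] [IsFractionRing A k]
    [IsAlgClosure k κ] (V : ValuationSubring κ) (hVA : ∀ a : A, algebraMap A κ a ∈ V)
    (hVm : ∀ a ∈ IsLocalRing.maximalIdeal A, algebraMap A κ a ∈ V.nonunits)
    (K : Type) [Fintype K] [DecidableEq K] (e : K → A) (he : ∀ i j, i ≠ j → IsUnit (e i - e j))
    (ϖ t : A) (m : ℤ) (hϖ : Irreducible ϖ) (ht : IsUnit t) (hmo : Odd m) (x y : M)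
    (hX : ∀ a, x - algebraMap κ M (algebraMap A κ (e a)) ≠ 0)
    (hy : algebraMap κ M (algebraMap A κ t * algebraMap A κ ϖ ^ m) * y ^ 2 =
      ∏ a, (x - algebraMap κ M (algebraMap A κ (e a))))
    (s : (κ ≃ₐ[k] κ) → (M ≃+* M))
    (hs : ∀ σ c, s σ (algebraMap κ M c) = algebraMap κ M (σ c)) (hsy : ∀ σ, s σ y = y)
    (i j l : K) (hji : j ≠ i) (hlj : l ≠ j) (hli : l ≠ i) (γ : M) (hγ : ∀ σ, s σ γ = γ)
    (hγ2 : γ ^ 2 = (x - algebraMap κ M (algebraMap A κ (e j))) *
      (x - algebraMap κ M (algebraMap A κ (e l))) *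
      algebraMap κ M (algebraMap A κ ((e i - e j) * (e i - e l))))
    (hWc : ∀ c : κ, algebraMap κ M c ∈ W)
    (hWr : ∀ z ∈ W, ∃ c : κ, z - algebraMap κ M c ∈ W.nonunits)
    (hWj : x - algebraMap κ M (algebraMap A κ (e j)) ∈ W.nonunits)
    (hdec : ∀ σ : κ ≃ₐ[k] κ, Dec V σ → ∀ z, s σ z ∈ W ↔ z ∈ W) : False := by
  classical
  set X : K → M := fun a => x - algebraMap κ M (algebraMap A κ (e a)) with hXdef
  set c0 : κ := algebraMap A κ ((e i - e j) * (e i - e l)) with hc0
  set D : κ := algebraMap A κ t * algebraMap A κ ϖ ^ m with hD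
  have hϖA : algebraMap A κ ϖ ≠ 0 := by
    rw [IsScalarTower.algebraMap_apply A k κ, _root_.map_ne_zero, ne_eq,
      IsFractionRing.to_map_eq_zero_iff]
    exact hϖ.ne_zero
  have hϖn : algebraMap A κ ϖ ∈ V.nonunits := by
    refine hVm ϖ ?_
    rw [IsLocalRing.mem_maximalIdeal]
    exact hϖ.not_isUnit
  have htU := unit_isU hVA ht
  have hc0U : IsU V c0 := unit_isU hVA ((he i j hji.symm).mul (he i l hli.symm))
  have hD0 : D ≠ 0 := mul_ne_zero htU.1 (zpow_ne_zero _ hϖA)
  set T : Finset K := (Finset.univ.erase j).erase l with hT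
  set P : M := ∏ a ∈ T, X a with hP
  set p0 : κ := ∏ a ∈ T, algebraMap A κ (e j - e a) with hp0
  have hprod : ∏ a, X a = X j * (X l * P) := by
    rw [← Finset.mul_prod_erase Finset.univ X (Finset.mem_univ j),
      ← Finset.mul_prod_erase (Finset.univ.erase j) X
        (Finset.mem_erase.2 ⟨hlj, Finset.mem_univ l⟩)]
  have hTj : ∀ a ∈ T, a ≠ j := fun a ha =>
    (Finset.mem_erase.1 (Finset.mem_erase.1 ha).2).1
  have hdiff : ∀ a, X a = algebraMap κ M (algebraMap A κ (e j - e a)) + X j := by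
    intro a
    simp only [hXdef]
    rw [map_sub, map_sub]
    ring
  have hgU : ∀ a ∈ T, IsU W (algebraMap κ M (algebraMap A κ (e j - e a))) := fun a ha =>
    isU_const hWc (unit_isU hVA (he j a (hTj a ha).symm)).1
  have hfU : ∀ a ∈ T, IsU W (X a) := by
    intro a ha
    rw [hdiff a]
    exact isU_add_non (hgU a ha) hWj
  obtain ⟨hPU, hp0U, hPp⟩ := prod_congr_non T X
    (fun a => algebraMap κ M (algebraMap A κ (e j - e a))) hfU hgU (fun a ha => by
      have : X a - algebraMap κ M (algebraMap A κ (e j - e a)) = X j := by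
        rw [hdiff a]; ring
      rw [this]
      exact hWj)
  have hp0M : ∏ a ∈ T, algebraMap κ M (algebraMap A κ (e j - e a)) = algebraMap κ M p0 := by
    rw [hp0, map_prod]
  rw [hp0M] at hp0U hPp
  have hp0V : IsU V p0 := by
    have : ∀ T' : Finset K, T' ⊆ T → IsU V (∏ a ∈ T', algebraMap A κ (e j - e a)) := by
      intro T'
      induction T' using Finset.induction_on with
      | empty => intro _; rw [Finset.prod_empty]; exact isU_one
      | insert a T' ha ih =>
        intro hT'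
        rw [Finset.prod_insert ha]
        exact (unit_isU hVA (he j a (hTj a (hT' (Finset.mem_insert_self a T'))).symm)).mul
          (ih fun b hb => hT' (Finset.mem_insert_of_mem hb))
    exact this T (Finset.Subset.refl _)
  have hDM : algebraMap κ M D ≠ 0 := (_root_.map_ne_zero _).2 hD0
  have hy0 : y ≠ 0 := by
    rintro rfl
    rw [zero_pow two_ne_zero, mul_zero, hprod] at hy
    exact mul_ne_zero (hX j) (mul_ne_zero (hX l) hPU.1) hy.symm
  set z : M := γ / y with hz
  have hz2 : z ^ 2 = algebraMap κ M (c0 * D) / P := by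
    have hXj : X j ≠ 0 := hX j
    have hXl : X l ≠ 0 := hX l
    have hy2 : y ^ 2 = X j * (X l * P) / algebraMap κ M D := by
      rw [eq_div_iff hDM, ← hprod, ← hy]; ring
    rw [hz, div_pow, hy2]
    have hγ2' : γ ^ 2 = X j * X l * algebraMap κ M c0 := hγ2
    rw [hγ2', map_mul (algebraMap κ M) c0 D]
    exact alg1 hXj hXl hPU.1 hDM
  set r : κ := c0 * D / p0 with hr
  have hr0 : r ≠ 0 := div_ne_zero (mul_ne_zero hc0U.1 hD0) hp0V.1
  have hzU : IsU W z := by
    refine isU_of_pow (n := 2) (by norm_num) ?_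
    rw [hz2]
    exact (isU_const hWc (mul_ne_zero hc0U.1 hD0)).div hPU
  have hzr : z ^ 2 - algebraMap κ M r ∈ W.nonunits := by
    have h1 : z ^ 2 - algebraMap κ M r = - (algebraMap κ M (c0 * D) / (P * algebraMap κ M p0)) *
        (P - algebraMap κ M p0) := by
      rw [hz2, hr, map_div₀]
      exact alg2 hPU.1 hp0U.1
    rw [h1]
    refine non_mul ?_ hPp
    exact neg_mem ((isU_const hWc (mul_ne_zero hc0U.1 hD0)).div (hPU.mul hp0U)).2.1
  obtain ⟨b, hb⟩ := hWr z hzU.2.1
  have hb2 : b ^ 2 = r := by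
    have h1 : algebraMap κ M (b ^ 2 - r) ∈ W.nonunits := by
      have h2 : algebraMap κ M (b ^ 2 - r) = (z ^ 2 - algebraMap κ M r) -
          (z + algebraMap κ M b) * (z - algebraMap κ M b) := by
        rw [map_sub, map_pow]; ring
      rw [h2]
      exact non_sub hzr (non_mul (add_mem hzU.2.1 (hWc b)) hb)
    exact sub_eq_zero.1 (const_zero hWc h1)
  have hb0 : b ≠ 0 := by
    rintro rfl
    rw [zero_pow two_ne_zero] at hb2
    exact hr0 hb2.symm
  have hfix : ∀ σ : κ ≃ₐ[k] κ, Ine V σ → σ b = b := by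
    intro σ hσ
    have h1 : s σ (z - algebraMap κ M b) ∈ W.nonunits :=
      (stable_non (τ := s σ) (hdec σ hσ.1) _).2 hb
    have h2 : s σ z = z := by rw [hz, map_div₀, hγ, hsy]
    rw [map_sub, h2, hs] at h1
    have h3 : algebraMap κ M (σ b - b) ∈ W.nonunits := by
      have h4 : algebraMap κ M (σ b - b) = (z - algebraMap κ M b) -
          (z - algebraMap κ M (σ b)) := by
        rw [map_sub]; ring
      rw [h4]
      exact non_sub hb h1
    exact sub_eq_zero.1 (const_zero hWc h3)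
  obtain ⟨n, hn⟩ := hINE A k κ V ϖ hVA hVm hϖ b hb0 hfix
  have hfin : IsU V (algebraMap A κ ϖ ^ (2 * n - m)) := by
    have h1 : algebraMap A κ ϖ ^ (2 * n - m) =
        (c0 * algebraMap A κ t / p0) / ((b / algebraMap A κ ϖ ^ n) *
          (b / algebraMap A κ ϖ ^ n)) := by
      have h2 : b * b = c0 * (algebraMap A κ t * algebraMap A κ ϖ ^ m) / p0 := by
        rw [← pow_two, hb2]
      have h3 : (b / algebraMap A κ ϖ ^ n) * (b / algebraMap A κ ϖ ^ n) =
          (c0 * algebraMap A κ t / p0) * (algebraMap A κ ϖ ^ (2 * n - m))⁻¹ := by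
        rw [div_mul_div_comm, h2, zpow_sub₀ hϖA, two_mul, zpow_add₀ hϖA]
        have h4 := hp0V.1
        have h5 : algebraMap A κ ϖ ^ n ≠ 0 := zpow_ne_zero _ hϖA
        have h6 : algebraMap A κ ϖ ^ m ≠ 0 := zpow_ne_zero _ hϖA
        field_simp
      rw [h3]
      have h7 : c0 * algebraMap A κ t / p0 ≠ 0 :=
        div_ne_zero (mul_ne_zero hc0U.1 htU.1) hp0V.1
      have h8 : algebraMap A κ ϖ ^ (2 * n - m) ≠ 0 := zpow_ne_zero _ hϖA
      exact alg3 h8 h7
    rw [h1]
    exact ((hc0U.mul htU).div hp0V).div (hn.mul hn)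
  refine zpow_not_unit hϖn (2 * n - m) ?_ hfin
  obtain ⟨m', hm'⟩ := hmo
  omega

end abs

/-- part CMP -/
theorem cmp (hINE : S_INE) : S_CMP := by
  intro A k F Ω _ _ _ _ _ _ _ _ _ _ _ _ _ _ _ _ V hVA hVm h2 K _ _ e he hev hcard ϖ t m hϖ ht hm
    x y hx hy S hS i j hij W hWc hWr hWj hdec
  by_contra hji
  -- a third index
  obtain ⟨l, hl⟩ : ∃ l : K, l ∉ ({i, j} : Finset K) := by
    by_contra hcon
    push Not at hcon
    have h3 : (Finset.univ : Finset K) ⊆ {i, j} := fun a _ => hcon a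
    have h4 := Finset.card_le_card h3
    rw [Finset.card_univ] at h4
    have h5 := Finset.card_le_two (a := i) (b := j)
    omega
  rw [Finset.mem_insert, Finset.mem_singleton, not_or] at hl
  obtain ⟨hli, hlj⟩ := hl
  obtain ⟨γ, hγ, hγ2⟩ := hij j l hji hli
  letI algA : Algebra A (algebraicClosure k Ω) :=
    ((algebraMap k (algebraicClosure k Ω)).comp (algebraMap A k)).toAlgebra
  haveI : IsScalarTower A k (algebraicClosure k Ω) := IsScalarTower.of_algebraMap_eq fun a => rfl
  have hAκ : ∀ a : A, ((algebraMap A (algebraicClosure k Ω) a : algebraicClosure k Ω) : Ω) =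
      algebraMap k Ω (algebraMap A k a) := fun a => rfl
  have hmem : ∀ c : algebraicClosure k Ω, (c : Ω) ∈ geomPro 2 k F Ω := by
    intro c
    have h3 : (c : Ω) ∈ geomF k F Ω := IntermediateField.subset_adjoin F _ c.2
    exact (maxPro 2 k (geomF k F Ω) Ω).algebraMap_mem ⟨(c : Ω), h3⟩
  let ι : algebraicClosure k Ω →+* geomPro 2 k F Ω :=
    { toFun := fun c => ⟨(c : Ω), hmem c⟩
      map_one' := rfl
      map_mul' := fun a b => rfl
      map_zero' := rfl
      map_add' := fun a b => rfl }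
  letI algM : Algebra (algebraicClosure k Ω) (geomPro 2 k F Ω) := ι.toAlgebra
  have hι : ∀ c : algebraicClosure k Ω,
      ((algebraMap (algebraicClosure k Ω) (geomPro 2 k F Ω) c : geomPro 2 k F Ω) : Ω) =
        (c : Ω) := fun c => rfl
  have hcst : ∀ a : A, algebraMap (algebraicClosure k Ω) (geomPro 2 k F Ω)
      (algebraMap A (algebraicClosure k Ω) a) =
        algebraMap F (geomPro 2 k F Ω) (algebraMap k F (algebraMap A k a)) := by
    intro a
    apply Subtype.ext
    rw [hι, hAκ, IsScalarTower.algebraMap_apply k F Ω]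
    rfl
  have hcstk : ∀ a : k, algebraMap (algebraicClosure k Ω) (geomPro 2 k F Ω)
      (algebraMap k (algebraicClosure k Ω) a) =
        algebraMap F (geomPro 2 k F Ω) (algebraMap k F a) := by
    intro a
    apply Subtype.ext
    rw [hι]
    change algebraMap k Ω a = algebraMap F Ω (algebraMap k F a)
    rw [IsScalarTower.algebraMap_apply k F Ω]
  refine cmp_abs hINE (W := W) V hVA hVm K e he ϖ t m hϖ ht hm
    (algebraMap F (geomPro 2 k F Ω) x) (algebraMap F (geomPro 2 k F Ω) y) ?_ ?_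
    (fun σ => (S σ : geomPro 2 k F Ω ≃+* geomPro 2 k F Ω)) ?_ ?_ i j l hji hlj hli γ ?_ ?_ ?_ ?_
    ?_ ?_
  · intro a h0
    rw [hcst, ← map_sub, _root_.map_eq_zero, sub_eq_zero] at h0
    apply hx
    rw [h0]
    exact isAlgebraic_algebraMap _
  · have h3 := congrArg (algebraMap F (geomPro 2 k F Ω)) hy
    rw [map_mul, map_pow, map_prod] at h3
    have h4 : algebraMap (algebraicClosure k Ω) (geomPro 2 k F Ω)
        (algebraMap A (algebraicClosure k Ω) t * algebraMap A (algebraicClosure k Ω) ϖ ^ m) =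
        algebraMap F (geomPro 2 k F Ω) (algebraMap k F (algebraMap A k t *
          algebraMap A k ϖ ^ m)) := by
      rw [← hcstk, map_mul (algebraMap k (algebraicClosure k Ω)), map_zpow₀]
      rfl
    rw [h4, h3]
    refine Finset.prod_congr rfl fun a _ => ?_
    rw [hcst, map_sub]
  · intro σ c
    apply Subtype.ext
    exact hS σ c _ (hι c)
  · intro σ
    exact (S σ).commutes y
  · intro σ
    exact hγ σ
  · apply Subtype.ext
    have h3 : ((γ ^ 2 : geomPro 2 k F Ω) : Ω) = (γ : Ω) ^ 2 := rfl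
    rw [h3, hγ2]
    rw [hcst, hcst, hcst, ← map_sub, ← map_sub, ← map_mul, ← map_mul]
    rfl
  · intro c
    exact hWc c _ (hι c)
  · intro z hz
    obtain ⟨c, z', hz', h3⟩ := hWr z hz
    refine ⟨c, ?_⟩
    have h4 : z' = z - algebraMap (algebraicClosure k Ω) (geomPro 2 k F Ω) c := by
      apply Subtype.ext
      rw [h3]
      rfl
    rw [← h4]
    exact hz'
  · rw [hcst, ← map_sub]
    exact hWj
  · intro σ hσ z
    exact hdec σ hσ z

end Pool.Agent.Y32.PS
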